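import Pool.Agent.H7.FrInj.Defs

set_option autoImplicit false

universe u

namespace Pool.Agent.H7.FrInj

open Filter Topology Finset

/-- The underlying space of `ℂ[[x]]`. -/
abbrev A0 : Type := ℕ → ℂ

lemma isFrechet_A0 : IsFrechetSpace A0 where
  isUniformAddGroup := inferInstance
  continuousSMul := inferInstance
  locallyConvex := inferInstance
  complete := inferInstance
  hausdorff := inferInstance
  countablyGenerated := inferInstance

lemma isFrechet_prod {X Y : Type*} [AddCommGroup X] [Module ℂ X] [UniformSpace X]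
    [AddCommGroup Y] [Module ℂ Y] [UniformSpace Y] (hX : IsFrechetSpace X)
    (hY : IsFrechetSpace Y) : IsFrechetSpace (X × Y) := by
  obtain ⟨x1, x2, x3, x4, x5, x6⟩ := hX
  obtain ⟨y1, y2, y3, y4, y5, y6⟩ := hY
  exact
  { isUniformAddGroup := inferInstance
    continuousSMul := inferInstance
    locallyConvex := inferInstance
    complete := inferInstance
    hausdorff := inferInstance
    countablyGenerated := inferInstance }

lemma isFrechet_C : IsFrechetSpace ℂ where
  isUniformAddGroup := inferInstance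
  continuousSMul := inferInstance
  locallyConvex := inferInstance
  complete := inferInstance
  hausdorff := inferInstance
  countablyGenerated := inferInstance

/-- Cauchy product. -/
noncomputable def cmul (a b : A0) : A0 := fun n => ∑ p ∈ antidiagonal n, a p.1 * b p.2

lemma mk_cmul (a b : A0) : PowerSeries.mk (cmul a b) = PowerSeries.mk a * PowerSeries.mk b := by
  ext n
  rw [PowerSeries.coeff_mk, PowerSeries.coeff_mul]
  simp [cmul]

lemma mk_inj {a b : A0} (h : PowerSeries.mk a = PowerSeries.mk b) : a = b := by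
  ext n
  have := congrArg (PowerSeries.coeff n) h
  simpa using this

lemma cmul_comm (a b : A0) : cmul a b = cmul b a := by
  apply mk_inj; rw [mk_cmul, mk_cmul, mul_comm]

lemma cmul_assoc (a b c : A0) : cmul (cmul a b) c = cmul a (cmul b c) := by
  apply mk_inj; simp only [mk_cmul, mul_assoc]

lemma cmul_cont : Continuous fun p : A0 × A0 => cmul p.1 p.2 := by
  unfold cmul
  fun_prop

noncomputable def cmulL : A0 →ₗ[ℂ] A0 →ₗ[ℂ] A0 :=
  LinearMap.mk₂ ℂ cmul
    (by intro a b c; ext n; simp [cmul, add_mul, Finset.sum_add_distrib])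
    (by intro r a b; ext n; simp [cmul, Finset.mul_sum, mul_assoc])
    (by intro a b c; ext n; simp [cmul, mul_add, Finset.sum_add_distrib])
    (by intro r a b; ext n; simp [cmul, Finset.mul_sum, mul_left_comm])

@[simp] lemma cmulL_apply (a b : A0) : cmulL a b = cmul a b := rfl

/-- `x^k`. -/
noncomputable def xp (k : ℕ) : A0 := Pi.single k 1

lemma mk_xp (k : ℕ) : PowerSeries.mk (xp k) = PowerSeries.X ^ k := by
  ext n
  rw [PowerSeries.coeff_mk, PowerSeries.coeff_X_pow]
  simp only [xp, Pi.single_apply]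

/-- The shift `a ↦ (a - a₀)/x`. -/
def sh : A0 →ₗ[ℂ] A0 where
  toFun a n := a (n + 1)
  map_add' _ _ := rfl
  map_smul' _ _ := rfl

lemma sh_cont : Continuous sh := by
  show Continuous fun a : A0 => fun n => a (n + 1)
  fun_prop

lemma cmul_xp_one_sh (a : A0) : cmul (xp 1) (sh a) = a - a 0 • xp 0 := by
  ext n
  cases n with
  | zero => simp [cmul, xp]
  | succ n =>
    have h := congrArg (PowerSeries.coeff (n + 1)) (mk_cmul (xp 1) (sh a))
    rw [mk_xp, pow_one, PowerSeries.coeff_mk] at h
    rw [h, PowerSeries.coeff_succ_X_mul, PowerSeries.coeff_mk]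
    simp [sh, xp]

lemma sh_cmul (a b : A0) : sh (cmul a b) = cmul a (sh b) + b 0 • sh a := by
  ext n
  show cmul a b (n + 1) = cmul a (sh b) n + b 0 • a (n + 1)
  simp only [cmul]
  rw [Finset.Nat.sum_antidiagonal_succ']
  simp [sh, mul_comm, add_comm]

lemma xp_zero_cmul (a : A0) : cmul (xp 0) a = a := by
  apply mk_inj; rw [mk_cmul, mk_xp, pow_zero, one_mul]

lemma sh_xp_succ (k : ℕ) : sh (xp (k + 1)) = xp k := by
  ext n
  simp [sh, xp, Pi.single_apply]

lemma sh_xp_zero : sh (xp 0) = 0 := by
  ext n
  simp [sh, xp]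

lemma cmul_xp (j k : ℕ) : cmul (xp j) (xp k) = xp (j + k) := by
  apply mk_inj; simp only [mk_cmul, mk_xp, pow_add]

lemma exists_single_mem {U : Set A0} (hU : U ∈ 𝓝 (0 : A0)) : ∃ N : ℕ, ∀ c : ℂ, c • xp N ∈ U := by
  by_contra hcon
  push Not at hcon
  choose c hc using hcon
  have h : Tendsto (fun N => c N • xp N) atTop (𝓝 (0 : A0)) := by
    rw [tendsto_pi_nhds]
    intro n
    apply tendsto_const_nhds.congr'
    filter_upwards [eventually_gt_atTop n] with N hN
    simp [xp, Pi.single_apply, hN.ne]
  obtain ⟨N, hN⟩ := (h.eventually hU).exists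
  exact hc N hN

/-- The algebra `ℂ[[x]]`. -/
noncomputable def M1 : FrechetAlgebra A0 where
  isFrechetSpace := isFrechet_A0
  mul := cmulL
  mul_assoc a b c := by simp [cmul_assoc]
  continuous_mul := cmul_cont

/-- The algebra `xℂ[[x]]`; the element `a` stands for `x·a(x)`. -/
noncomputable def M0 : FrechetAlgebra A0 where
  isFrechetSpace := isFrechet_A0
  mul := cmulL.compr₂ (cmulL (xp 1))
  mul_assoc a b c := by
    simp only [LinearMap.compr₂_apply, cmulL_apply]
    apply mk_inj
    simp only [mk_cmul]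
    ring
  continuous_mul := by
    simp only [LinearMap.compr₂_apply, cmulL_apply]
    exact cmul_cont.comp (continuous_const.prodMk cmul_cont)

/-- A Hausdorff module on which all `x^k` act surjectively is zero. -/
lemma subsingleton_of_surj {X : Type u} [AddCommGroup X] [Module ℂ X] [UniformSpace X]
    (hX : IsFrechetSpace X) (act : A0 →ₗ[ℂ] X →ₗ[ℂ] X)
    (hcont : Continuous fun p : A0 × X => act p.1 p.2)
    (hsurj : ∀ (k : ℕ) (v : X), ∃ w : X, act (xp k) w = v) : Subsingleton X := by
  obtain ⟨x1, x2, x3, x4, x5, x6⟩ := hX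
  apply subsingleton_of_forall_eq (0 : X)
  intro v
  by_contra hv
  obtain ⟨W, hW, hvW⟩ : ∃ W ∈ 𝓝 (0 : X), v ∉ W :=
    ⟨{v}ᶜ, isOpen_compl_singleton.mem_nhds (fun h => hv h.symm), by simp⟩
  have h0 : Tendsto (fun p : A0 × X => act p.1 p.2) (𝓝 (0, 0)) (𝓝 0) := by
    have := hcont.tendsto (0, 0)
    simpa using this
  have h1 := h0 hW
  rw [Filter.mem_map, nhds_prod_eq, Filter.mem_prod_iff] at h1
  obtain ⟨U, hU, V, hV, hUV⟩ := h1
  obtain ⟨N, hN⟩ := exists_single_mem hU
  obtain ⟨w, hw⟩ := hsurj N v
  -- absorb `w`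
  have h2 : Tendsto (fun n : ℕ => ((n : ℂ) + 1)⁻¹ • w) atTop (𝓝 (0 : X)) := by
    have h3 : Tendsto (fun n : ℕ => ((n : ℂ) + 1)⁻¹) atTop (𝓝 0) := by
      have h4 := tendsto_one_div_add_atTop_nhds_zero_nat (𝕜 := ℂ)
      simpa using h4
    have := h3.smul_const w
    simpa using this
  obtain ⟨n, hn⟩ := (h2.eventually hV).exists
  have hne : ((n : ℂ) + 1) ≠ 0 := Nat.cast_add_one_ne_zero n
  have h3 := hUV (Set.mk_mem_prod (hN ((n : ℂ) + 1)) hn)
  apply hvW
  have h4 : act (((n : ℂ) + 1) • xp N) (((n : ℂ) + 1)⁻¹ • w) = v := by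
    rw [map_smul, map_smul, LinearMap.smul_apply, smul_smul, inv_mul_cancel₀ hne, one_smul, hw]
  have h5 : act (((n : ℂ) + 1) • xp N) (((n : ℂ) + 1)⁻¹ • w) ∈ W := h3
  rwa [h4] at h5

section unital

variable {X : Type u} [AddCommGroup X] [Module ℂ X] [UniformSpace X]

/-- The one-dimensional extension of a unital `ℂ[[x]]`-module. -/
noncomputable def ext1 (S : FrechetModule M1 X) (v : X) : FrechetModule M1 (X × ℂ) where
  isFrechetSpace := isFrechet_prod S.isFrechetSpace isFrechet_C
  act := LinearMap.mk₂ ℂ (fun a y => (S.act a y.1 + y.2 • S.act (sh a) v, a 0 * y.2))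
    (by
      intro a b y
      ext
      · simp only [map_add, LinearMap.add_apply, smul_add, Prod.fst_add]
        abel
      · simp [add_mul])
    (by
      intro c a y
      ext
      · simp only [map_smul, LinearMap.smul_apply, smul_add, Prod.smul_fst]
        rw [smul_comm y.2 c]
      · simp [mul_assoc])
    (by
      intro a y z
      ext
      · simp only [Prod.fst_add, Prod.snd_add, map_add, add_smul]
        abel
      · simp [mul_add])
    (by
      intro c a y
      ext
      · simp only [Prod.smul_fst, Prod.smul_snd, map_smul, smul_add, smul_eq_mul, mul_smul]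
      · simp [mul_left_comm])
  act_mul a b y := by
    have hm : M1.mul a b = cmul a b := rfl
    ext
    · simp only [LinearMap.mk₂_apply, hm, sh_cmul]
      rw [← hm, S.act_mul]
      simp only [map_add, LinearMap.add_apply, map_smul, LinearMap.smul_apply]
      have : S.act (cmul a (sh b)) v = S.act a (S.act (sh b) v) := by
        rw [← S.act_mul]; rfl
      rw [this, smul_add, smul_smul, mul_comm (b 0) y.2]
      abel
    · simp only [LinearMap.mk₂_apply, hm]
      simp [cmul, mul_assoc]
  continuous_act := by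
    obtain ⟨x1, x2, x3, x4, x5, x6⟩ := S.isFrechetSpace
    simp only [LinearMap.mk₂_apply]
    have h1 := S.continuous_act
    have h2 : Continuous fun p : A0 × X × ℂ => S.act p.1 p.2.1 :=
      h1.comp (continuous_fst.prodMk (continuous_fst.comp continuous_snd))
    have h3 : Continuous fun p : A0 × X × ℂ => S.act (sh p.1) v :=
      h1.comp ((sh_cont.comp continuous_fst).prodMk continuous_const)
    have h4 : Continuous fun p : A0 × X × ℂ => p.1 0 := by fun_prop
    exact (h2.add ((continuous_snd.comp continuous_snd).smul h3)).prodMk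
      (h4.mul (continuous_snd.comp continuous_snd))

lemma ext1_act (S : FrechetModule M1 X) (v : X) (a : A0) (y : X × ℂ) :
    (ext1 S v).act a y = (S.act a y.1 + y.2 • S.act (sh a) v, a 0 * y.2) := rfl

lemma unital_case (S : FrechetModule M1 X) (hu : IsUnital (xp 0) S)
    (hinj : IsUnitalInjective (xp 0) S) : Subsingleton X := by
  have hx1 : ∀ v : X, ∃ w : X, S.act (xp 1) w = v := by
    intro v
    have hu' : IsUnital (xp 0) (ext1 S v) := by
      intro y
      rw [ext1_act, hu, sh_xp_zero]
      ext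
      · simp
      · simp [xp]
    obtain ⟨ψ, hψ1, hψ2⟩ := hinj (X × ℂ) (ext1 S v) hu' (ContinuousLinearMap.inl ℂ X ℂ)
      (by intro a x; rw [ext1_act]; simp) ⟨ContinuousLinearMap.fst ℂ X ℂ, by simp⟩
    refine ⟨ψ (0, 1), ?_⟩
    rw [← hψ1, ext1_act]
    have e1 : sh (xp 1) = xp 0 := sh_xp_succ 0
    have e2 : S.act (xp 0) v = v := hu v
    simp only [map_zero, zero_add, one_smul, e1, e2]
    have e3 : (xp 1 0 : ℂ) = 0 := by simp [xp]
    rw [e3, zero_mul]
    exact hψ2 v
  apply subsingleton_of_surj S.isFrechetSpace S.act S.continuous_act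
  intro k
  induction k with
  | zero => intro v; exact ⟨v, hu v⟩
  | succ k ih =>
    intro v
    obtain ⟨w, hw⟩ := ih v
    obtain ⟨w', hw'⟩ := hx1 w
    refine ⟨w', ?_⟩
    have : xp (k + 1) = M1.mul (xp k) (xp 1) := (cmul_xp k 1).symm
    rw [this, S.act_mul, hw', hw]

end unital

section nonunital

variable {X : Type u} [AddCommGroup X] [Module ℂ X] [UniformSpace X]

lemma M0_mul (a b : A0) : M0.mul a b = cmul (xp 1) (cmul a b) := rfl

lemma M0_mul_zero (a b : A0) : (M0.mul a b) 0 = 0 := by
  rw [M0_mul]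
  simp [cmul, xp]

lemma sh_M0_mul (a b : A0) : sh (M0.mul a b) = cmul a b := by
  rw [M0_mul]
  have h := sh_cmul (cmul a b) (xp 1)
  rw [cmul_comm] at h
  rw [h]
  have e1 : sh (xp 1) = xp 0 := sh_xp_succ 0
  have e3 : (xp 1 0 : ℂ) = 0 := by simp [xp]
  rw [e1, e3, zero_smul, add_zero, cmul_comm, xp_zero_cmul]

lemma M0_mul_sh (a b : A0) : M0.mul a (sh b) = cmul a b - b 0 • a := by
  rw [M0_mul, ← cmul_assoc, cmul_comm (xp 1) a, cmul_assoc, cmul_xp_one_sh]
  have : cmul a (b - b 0 • xp 0) = cmulL a (b - b 0 • xp 0) := rfl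
  rw [this, map_sub, map_smul, cmulL_apply, cmulL_apply, cmul_comm a (xp 0), xp_zero_cmul]

/-- The one-dimensional extension of an `xℂ[[x]]`-module. -/
noncomputable def ext0 (S : FrechetModule M0 X) (v : X) : FrechetModule M0 (X × ℂ) where
  isFrechetSpace := isFrechet_prod S.isFrechetSpace isFrechet_C
  act := LinearMap.mk₂ ℂ (fun a y => (S.act a y.1 + y.2 • (a 0 • v + S.act (sh a) v), 0))
    (by
      intro a b y
      ext
      · simp only [map_add, LinearMap.add_apply, smul_add, Pi.add_apply, add_smul, Prod.fst_add]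
        abel
      · simp)
    (by
      intro c a y
      ext
      · simp only [map_smul, LinearMap.smul_apply, smul_add, Prod.smul_fst, Pi.smul_apply,
          smul_eq_mul, mul_smul]
        rw [smul_comm y.2 c, smul_comm y.2 c]
      · simp)
    (by
      intro a y z
      ext
      · simp only [Prod.fst_add, Prod.snd_add, map_add, add_smul]
        abel
      · simp)
    (by
      intro c a y
      ext
      · simp only [Prod.smul_fst, Prod.smul_snd, map_smul, smul_add, smul_eq_mul, mul_smul]
      · simp)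
  act_mul a b y := by
    ext
    · simp only [LinearMap.mk₂_apply, M0_mul_zero, sh_M0_mul, zero_smul, zero_add, S.act_mul,
        map_add, map_smul, add_zero]
      have : S.act (cmul a b) v = S.act a (S.act (sh b) v) + b 0 • S.act a v := by
        rw [← S.act_mul, M0_mul_sh, map_sub, LinearMap.sub_apply, map_smul, LinearMap.smul_apply]
        abel
      rw [this, add_comm (S.act a (S.act (sh b) v))]
    · simp only [LinearMap.mk₂_apply]
  continuous_act := by
    obtain ⟨x1, x2, x3, x4, x5, x6⟩ := S.isFrechetSpace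
    simp only [LinearMap.mk₂_apply]
    have h1 := S.continuous_act
    have h2 : Continuous fun p : A0 × X × ℂ => S.act p.1 p.2.1 :=
      h1.comp (continuous_fst.prodMk (continuous_fst.comp continuous_snd))
    have h3 : Continuous fun p : A0 × X × ℂ => S.act (sh p.1) v :=
      h1.comp ((sh_cont.comp continuous_fst).prodMk continuous_const)
    have h4 : Continuous fun p : A0 × X × ℂ => p.1 0 := by fun_prop
    exact (h2.add ((continuous_snd.comp continuous_snd).smul
      ((h4.smul continuous_const).add h3))).prodMk continuous_const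

lemma ext0_act (S : FrechetModule M0 X) (v : X) (a : A0) (y : X × ℂ) :
    (ext0 S v).act a y = (S.act a y.1 + y.2 • (a 0 • v + S.act (sh a) v), 0) := rfl

lemma nonunital_case (S : FrechetModule M0 X) (hinj : IsInjective S) : Subsingleton X := by
  have hx1 : ∀ v : X, ∃ w : X, S.act (xp 0) w = v := by
    intro v
    obtain ⟨ψ, hψ1, hψ2⟩ := hinj (X × ℂ) (ext0 S v) (ContinuousLinearMap.inl ℂ X ℂ)
      (by intro a x; rw [ext0_act]; simp) ⟨ContinuousLinearMap.fst ℂ X ℂ, by simp⟩
    refine ⟨ψ (0, 1), ?_⟩
    rw [← hψ1, ext0_act]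
    have e1 : sh (xp 0) = 0 := sh_xp_zero
    have e3 : (xp 0 0 : ℂ) = 1 := by simp [xp]
    simp only [map_zero, zero_add, one_smul, e1, e3, LinearMap.zero_apply, add_zero]
    exact hψ2 v
  apply subsingleton_of_surj S.isFrechetSpace S.act S.continuous_act
  intro k
  induction k with
  | zero => exact hx1
  | succ k ih =>
    intro v
    obtain ⟨w, hw⟩ := ih v
    obtain ⟨w', hw'⟩ := hx1 w
    refine ⟨w', ?_⟩
    have : xp (k + 1) = M0.mul (xp k) (xp 0) := by
      rw [M0_mul, cmul_xp, cmul_xp, add_zero, add_comm]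
    rw [this, S.act_mul, hw', hw]

end nonunital

end Pool.Agent.H7.FrInj
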