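import Mathlib

set_option autoImplicit false

universe u

namespace Pool.Agent.H7.FrInj

/-- `X` is a Fréchet space: a complete, metrizable (= Hausdorff with countably generated
uniformity), locally convex complex topological vector space. -/
structure IsFrechetSpace (X : Type*) [AddCommGroup X] [Module ℂ X] [UniformSpace X] : Prop where
  isUniformAddGroup : IsUniformAddGroup X
  continuousSMul : ContinuousSMul ℂ X
  locallyConvex : LocallyConvexSpace ℝ X
  complete : CompleteSpace X
  hausdorff : T2Space X
  countablyGenerated : (uniformity X).IsCountablyGenerated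

/-- A Fréchet algebra structure on the space `A`: an associative, jointly continuous, bilinear
multiplication. -/
structure FrechetAlgebra (A : Type*) [AddCommGroup A] [Module ℂ A] [UniformSpace A] where
  isFrechetSpace : IsFrechetSpace A
  mul : A →ₗ[ℂ] A →ₗ[ℂ] A
  mul_assoc : ∀ a b c : A, mul (mul a b) c = mul a (mul b c)
  continuous_mul : Continuous fun p : A × A => mul p.1 p.2

/-- A Fréchet left module structure on the space `X` over the Fréchet algebra `(A, M)`. -/
structure FrechetModule {A : Type*} [AddCommGroup A] [Module ℂ A] [UniformSpace A]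
    (M : FrechetAlgebra A) (X : Type*) [AddCommGroup X] [Module ℂ X] [UniformSpace X] where
  isFrechetSpace : IsFrechetSpace X
  act : A →ₗ[ℂ] X →ₗ[ℂ] X
  act_mul : ∀ (a b : A) (x : X), act (M.mul a b) x = act a (act b x)
  continuous_act : Continuous fun p : A × X => act p.1 p.2

section

variable {A : Type*} [AddCommGroup A] [Module ℂ A] [UniformSpace A] {M : FrechetAlgebra A}

/-- A continuous linear map is a morphism of modules. -/
def IsMorphism {X Y : Type*} [AddCommGroup X] [Module ℂ X] [UniformSpace X]
    [AddCommGroup Y] [Module ℂ Y] [UniformSpace Y] (S : FrechetModule M X)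
    (T : FrechetModule M Y) (φ : X →L[ℂ] Y) : Prop :=
  ∀ (a : A) (x : X), φ (S.act a x) = T.act a (φ x)

/-- The Fréchet module `(X, S)` is injective in the category of all Fréchet modules over `(A, M)`:
every morphism `φ : X → Y` with a continuous linear left inverse has a continuous `A`-linear
left inverse. -/
def IsInjective {X : Type u} [AddCommGroup X] [Module ℂ X] [UniformSpace X]
    (S : FrechetModule M X) : Prop :=
  ∀ (Y : Type u) [AddCommGroup Y] [Module ℂ Y] [UniformSpace Y] (T : FrechetModule M Y)
    (φ : X →L[ℂ] Y), IsMorphism S T φ →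
    (∃ ψ : Y →L[ℂ] X, ∀ x, ψ (φ x) = x) →
    ∃ ψ : Y →L[ℂ] X, IsMorphism T S ψ ∧ ∀ x, ψ (φ x) = x

/-- `e` is a unit (two-sided identity) of the algebra `(A, M)`. -/
def IsUnitElt (M : FrechetAlgebra A) (e : A) : Prop :=
  ∀ a : A, M.mul e a = a ∧ M.mul a e = a

/-- The module `(X, S)` is unital with respect to `e`. -/
def IsUnital {X : Type*} [AddCommGroup X] [Module ℂ X] [UniformSpace X] (e : A)
    (S : FrechetModule M X) : Prop :=
  ∀ x : X, S.act e x = x

/-- The unital Fréchet module `(X, S)` is injective in the category of unital Fréchet modules. -/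
def IsUnitalInjective {X : Type u} [AddCommGroup X] [Module ℂ X] [UniformSpace X] (e : A)
    (S : FrechetModule M X) : Prop :=
  ∀ (Y : Type u) [AddCommGroup Y] [Module ℂ Y] [UniformSpace Y] (T : FrechetModule M Y),
    IsUnital e T → ∀ (φ : X →L[ℂ] Y), IsMorphism S T φ →
    (∃ ψ : Y →L[ℂ] X, ∀ x, ψ (φ x) = x) →
    ∃ ψ : Y →L[ℂ] X, IsMorphism T S ψ ∧ ∀ x, ψ (φ x) = x

/-- The multiplication is commutative. -/
def IsCommutative (M : FrechetAlgebra A) : Prop := ∀ a b : A, M.mul a b = M.mul b a

/-- No non-zero Fréchet module over `(A, M)` is injective. -/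
def NoNonzeroInjective (M : FrechetAlgebra A) : Prop :=
  ∀ (X : Type u) [AddCommGroup X] [Module ℂ X] [UniformSpace X] (S : FrechetModule M X),
    IsInjective S → Subsingleton X

/-- No non-zero unital Fréchet module over `(A, M)`, with unit `e`, is injective among unital
Fréchet modules. -/
def NoNonzeroUnitalInjective (M : FrechetAlgebra A) (e : A) : Prop :=
  ∀ (X : Type u) [AddCommGroup X] [Module ℂ X] [UniformSpace X] (S : FrechetModule M X),
    IsUnital e S → IsUnitalInjective e S → Subsingleton X

end

end Pool.Agent.H7.FrInj
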